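import Pool.Agent.H34.N6V.Targets
import Pool.Agent.H99.N6E.EFAC

/-!
# Row VFAD: properties of the factor of the reduction at a good place, with the division
-/

set_option autoImplicit false

open Polynomial NumberField IsDedekindDomain Pool.Agent.H32.QC Pool.Agent.H34.N6
  Pool.Agent.H13.DEV

namespace Pool.Agent.H42.N6V

open Pool.Agent.H34.N6V Pool.Agent.H99.N6E

theorem pf_FAD (hRED : T_RED) (hCFI : T_CFI) (hBEL : T_BEL) (hFIN : T_FIN) : T_FAD := by
  intro k L _ _ _ _ _ P D e ws hP hG hgood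
  have he0 : aeval e P = 0 := by rw [← hG.mp]; exact minpoly.aeval k e
  obtain ⟨A, hAm, hAi, hAd, hAlt, hA⟩ := hRED k L P e ws hP hgood.intP he0
  -- integrality from below
  have hup : ∀ w : FPl L, w.under (𝓞 k) = ws.under (𝓞 k) → ∀ G : k[X],
      Int (ws.under (𝓞 k)) G → ∀ i, ‖(G.map (kc k w)).coeff i‖ ≤ 1 := by
    intro w hw G hGi i
    rw [coeff_map]
    have h1 := ((hBEL k L w).1 (G.coeff i)).1
    rw [hw] at h1
    exact h1.2 (hGi i)
  have huplt : ∀ w : FPl L, w.under (𝓞 k) = ws.under (𝓞 k) → ∀ G : k[X],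
      (∀ i, ‖ic (ws.under (𝓞 k)) (G.coeff i)‖ < 1) → ∀ i, ‖(G.map (kc k w)).coeff i‖ < 1 := by
    intro w hw G hGi i
    rw [coeff_map]
    have h1 := ((hBEL k L w).1 (G.coeff i)).2
    rw [hw] at h1
    exact h1.2 (hGi i)
  have hei : ∀ w : FPl L, w.under (𝓞 k) = ws.under (𝓞 k) → ‖ic w e‖ ≤ 1 := by
    intro w hw
    refine root_le (P.map (kc k w)) (hP.map _) (hup w hw P hgood.intP) _ ?_
    rw [← ic_aeval, he0, map_zero]
  have hev : ∀ w : FPl L, w.under (𝓞 k) = ws.under (𝓞 k) → ∀ G : k[X],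
      Int (ws.under (𝓞 k)) G → ‖ic w (aeval e G)‖ ≤ 1 := by
    intro w hw G hGi
    rw [ic_aeval]
    exact ev_le _ _ 1 zero_le_one (hup w hw G hGi) (hei w hw)
  have hevlt : ∀ w : FPl L, w.under (𝓞 k) = ws.under (𝓞 k) → ∀ G : k[X],
      (∀ i, ‖ic (ws.under (𝓞 k)) (G.coeff i)‖ < 1) → ‖ic w (aeval e G)‖ < 1 := by
    intro w hw G hGi
    rw [ic_aeval]
    exact ev_lt _ _ (huplt w hw G hGi) (hei w hw)
  have hder : ∀ w : FPl L, w.under (𝓞 k) = ws.under (𝓞 k) → ∀ G : k[X],
      Int (ws.under (𝓞 k)) G → ‖ic w (aeval e (derivative G))‖ ≤ 1 := by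
    intro w hw G hGi
    rw [ic_aeval, ← derivative_map]
    exact ev_le _ _ 1 zero_le_one (der_le _ 1 (hup w hw G hGi)) (hei w hw)
  have hderlt : ∀ w : FPl L, w.under (𝓞 k) = ws.under (𝓞 k) → ∀ G : k[X],
      (∀ i, ‖ic (ws.under (𝓞 k)) (G.coeff i)‖ < 1) →
      ‖ic w (aeval e (derivative G))‖ < 1 := by
    intro w hw G hGi
    rw [ic_aeval, ← derivative_map]
    exact ev_lt _ _ (der_lt _ (huplt w hw G hGi)) (hei w hw)
  -- the factorisation of `P`
  obtain ⟨C, B, hCi, hPAB, hB⟩ := hA P hgood.intP (by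
    rw [he0, map_zero, norm_zero]
    exact zero_lt_one)
  have hPd : ‖ic ws (aeval e (derivative P))‖ = 1 := by
    obtain ⟨a, b, ha, hb, hab⟩ := hgood.sep
    have h1 : aeval e (a * P + b * derivative P) = 1 := by rw [hab, map_one]
    rw [map_add, map_mul, he0, mul_zero, zero_add, map_mul] at h1
    have h2 : ‖ic ws (aeval e b) * ic ws (aeval e (derivative P))‖ = 1 := by
      rw [← map_mul, h1, map_one, norm_one]
    exact (mul_one_of (hev ws rfl b hb) (hder ws rfl P hgood.intP) h2).2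
  have hAC : ‖ic ws (aeval e (derivative A)) * ic ws (aeval e C)‖ = 1 := by
    have h1 : derivative P = derivative A * C + A * derivative C + derivative B := by
      rw [hPAB, derivative_add, derivative_mul]
    have h2 : ic ws (aeval e (derivative A)) * ic ws (aeval e C) =
        ic ws (aeval e (derivative P)) - (ic ws (aeval e A) * ic ws (aeval e (derivative C)) +
          ic ws (aeval e (derivative B))) := by
      rw [h1]
      simp only [map_add, map_mul]
      ring
    have h3 : ‖ic ws (aeval e A) * ic ws (aeval e (derivative C)) +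
        ic ws (aeval e (derivative B))‖ < 1 := by
      refine lt_of_le_of_lt (IsUltrametricDist.norm_add_le_max _ _) (max_lt ?_ ?_)
      · rw [norm_mul]
        exact mul_lt_one_of_nonneg_of_lt_one_left (norm_nonneg _) hAlt (hder ws rfl C hCi)
      · exact hderlt ws rfl B hB
    rw [h2]
    rw [← hPd]
    refine norm_eq_of ?_
    rw [sub_sub_cancel_left, norm_neg, hPd]
    exact h3
  obtain ⟨hAd1, hC1⟩ := mul_one_of (hder ws rfl A hAi) (hev ws rfl C hCi) hAC
  -- the main step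
  have hcore : ∀ z : L, (∀ w : FPl L, w.under (𝓞 k) = ws.under (𝓞 k) → ‖ic w z‖ ≤ 1) →
      ‖ic ws z‖ < 1 → ∃ C B : k[X], Int (ws.under (𝓞 k)) C ∧
        (∀ i, ‖ic (ws.under (𝓞 k)) (B.coeff i)‖ < 1) ∧
        z = aeval e A * aeval e C + aeval e B := by
    intro z hz hzs
    obtain ⟨Q, hQd, hQ⟩ := exists_poly hG hP he0 z
    have hQi : Int (ws.under (𝓞 k)) Q := by
      refine hCFI k L P D e _ hG hgood Q hQd fun w hw => ?_
      rw [hQ]
      exact hz w hw
    obtain ⟨C, B, hC, hQB, hB⟩ := hA Q hQi (by rw [hQ]; exact hzs)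
    refine ⟨C, B, hC, hB, ?_⟩
    rw [← hQ, hQB, map_add, map_mul]
  -- the places over `v`
  have hfin : {w : FPl L | w.under (𝓞 k) = ws.under (𝓞 k)}.Finite := by
    have h1 := ((hFIN k L).1 (Sum.inl (ws.under (𝓞 k)))).preimage
      (Sum.inl_injective (α := FPl L) (β := L →+* ℝ)).injOn
    refine h1.subset fun w hw => ?_
    show bel (k := k) (Sum.inl w) = Sum.inl (ws.under (𝓞 k))
    exact congrArg Sum.inl hw
  have happ : ∀ (w₀ : FPl L) (x : w₀.adicCompletion L) (r : ℝ), 0 < r → r ≤ 1 →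
      ∃ z : L, ‖ic w₀ z - x‖ < r ∧
        ∀ w : FPl L, w.under (𝓞 k) = ws.under (𝓞 k) → w ≠ w₀ → ‖ic w z‖ < 1 := by
    intro w₀ x r hr hr1
    classical
    obtain ⟨z, hz, -⟩ := Pool.Agent.H12.QC.weakApprox (insert w₀ hfin.toFinset)
      (Function.update (fun w' : FPl L => (0 : w'.adicCompletion L)) w₀ x)
      (fun w' => Metric.ball
        (Function.update (fun w' : FPl L => (0 : w'.adicCompletion L)) w₀ x w') r)
      (fun w' _ => Metric.ball_mem_nhds _ hr) (fun _ => 0) 1 one_pos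
    refine ⟨z, ?_, fun w hw hne => ?_⟩
    · have h1 := hz w₀ (Finset.mem_insert_self _ _)
      rw [Function.update_self, Metric.mem_ball, dist_eq_norm] at h1
      exact h1
    · have h1 := hz w (Finset.mem_insert_of_mem (hfin.mem_toFinset.2 hw))
      rw [Function.update_of_ne hne, Metric.mem_ball, dist_eq_norm, sub_zero] at h1
      exact h1.trans_le hr1
  refine ⟨A, hAm, hAi, hAd, hAlt, hAd1, fun w hw hne => ?_, fun π hπ hπmax x hx => ?_, hA⟩
  · refine le_antisymm (hev w hw A hAi) ?_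
    by_contra hlt
    rw [not_le] at hlt
    obtain ⟨z, hz1, hz2⟩ := happ w 1 1 one_pos le_rfl
    have hzw : ‖ic w z‖ = 1 := norm_one_of hz1
    obtain ⟨C2, B2, hC2, hB2, hzz⟩ := hcore z (fun w' hw' => by
      by_cases h : w' = w
      · rw [h, hzw]
      · exact (hz2 w' hw' h).le) (hz2 ws rfl (Ne.symm hne))
    have h1 : ‖ic w z‖ < 1 := by
      rw [hzz, map_add, map_mul]
      refine lt_of_le_of_lt (IsUltrametricDist.norm_add_le_max _ _) (max_lt ?_ ?_)
      · rw [norm_mul]
        exact mul_lt_one_of_nonneg_of_lt_one_left (norm_nonneg _) hlt (hev w hw C2 hC2)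
      · exact hevlt w hw B2 hB2
    rw [hzw] at h1
    exact lt_irrefl _ h1
  · have hπ0 : π ≠ 0 := by
      rintro rfl
      obtain ⟨p, hp⟩ := (ws.under (𝓞 k)).valuation_exists_uniformizer k
      have hp0 : p ≠ 0 := by
        rintro rfl
        rw [map_zero] at hp
        exact WithZero.exp_ne_zero hp.symm
      have h1 : ‖ic (ws.under (𝓞 k)) p‖ < 1 := by
        have h2 : Valued.v (ic (ws.under (𝓞 k)) p) = (ws.under (𝓞 k)).valuation k p :=
          HeightOneSpectrum.valuedAdicCompletion_eq_valuation' _ p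
        rw [Valued.toNormedField.norm_lt_one_iff, h2, hp]
        decide
      have h3 := hπmax p h1
      rw [map_zero, norm_zero] at h3
      have h4 := norm_le_zero_iff.1 h3
      exact hp0 ((map_eq_zero _).1 h4)
    have hπpos : 0 < ‖ic (ws.under (𝓞 k)) π‖ := norm_pos_iff.2 ((_root_.map_ne_zero _).2 hπ0)
    have hρpos : 0 < ‖kc k ws π‖ := norm_pos_iff.2 ((_root_.map_ne_zero _).2 hπ0)
    have hBρ : ∀ G : k[X], (∀ i, ‖ic (ws.under (𝓞 k)) (G.coeff i)‖ < 1) →
        ‖ic ws (aeval e G)‖ ≤ ‖kc k ws π‖ := by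
      intro G hGi
      rw [ic_aeval]
      refine ev_le _ _ _ hρpos.le (fun i => ?_) (hei ws rfl)
      rw [coeff_map]
      have h1 : ‖ic (ws.under (𝓞 k)) (G.coeff i / π)‖ ≤ 1 := by
        rw [map_div₀, norm_div, div_le_one hπpos]
        exact hπmax _ (hGi i)
      have h2 := ((hBEL k L ws).1 (G.coeff i / π)).1.2 h1
      rw [map_div₀, norm_div, div_le_one hρpos] at h2
      exact h2
    have hAρ : ‖ic ws (aeval e A)‖ ≤ ‖kc k ws π‖ := by
      have h1 : aeval e A * aeval e C + aeval e B = 0 := by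
        rw [← map_mul, ← map_add, ← hPAB, he0]
      have h2 : ic ws (aeval e A) * ic ws (aeval e C) = -ic ws (aeval e B) := by
        rw [← map_mul, ← map_neg]
        congr 1
        linear_combination h1
      have h3 : ‖ic ws (aeval e A)‖ = ‖ic ws (aeval e B)‖ := by
        rw [← norm_neg (ic ws (aeval e B)), ← h2, norm_mul, hC1, mul_one]
      rw [h3]
      exact hBρ B hB
    by_cases hx0 : x = 0
    · rw [hx0, norm_zero]
      exact hρpos.le
    obtain ⟨z, hz1, hz2⟩ := happ ws x ‖x‖ (norm_pos_iff.2 hx0) hx.le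
    have hzx : ‖ic ws z‖ = ‖x‖ := norm_eq_of hz1
    obtain ⟨C3, B3, hC3, hB3, hzz⟩ := hcore z (fun w' hw' => by
      by_cases h : w' = ws
      · rw [h, hzx]
        exact hx.le
      · exact (hz2 w' hw' h).le) (by rw [hzx]; exact hx)
    rw [← hzx, hzz, map_add, map_mul]
    refine (IsUltrametricDist.norm_add_le_max _ _).trans (max_le ?_ (hBρ B3 hB3))
    rw [norm_mul]
    calc ‖ic ws (aeval e A)‖ * ‖ic ws (aeval e C3)‖ ≤ ‖kc k ws π‖ * 1 := by
          gcongr
          exact hev ws rfl C3 hC3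
      _ = ‖kc k ws π‖ := mul_one _

end Pool.Agent.H42.N6V
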