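import Pool.Agent.H34.N6V.Targets
import Pool.Agent.H46.N6E.STP

/-!
# Row VSTF: the conditions at the auxiliary place are open, several factors
-/

set_option autoImplicit false

namespace Pool.Agent.H42.N6V

open Polynomial NumberField IsDedekindDomain Pool.Agent.H32.QC Pool.Agent.H34.N6
open Pool.Agent.H13.DEV Pool.Agent.H34.N6V Pool.Agent.H46.N6E

set_option linter.unusedVariables false in
theorem pf_STF (hSTP : T_STP) (hBEL : T_BEL) (hFIN : T_FIN) : T_STF := by
  intro k ι _ _ _ L _ _ _ P e N j₀ ws G hPm hPI he hG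
  obtain ⟨ε, hε, h⟩ := hSTP k (L j₀) (P j₀) (e j₀) ws N G (hPm j₀) (hPI j₀) (he j₀) hG.star
  refine ⟨min ε 1, lt_min hε one_pos, fun G' hm hd hcl => ⟨h G' hm hd fun i => ?_, ?_⟩⟩
  · exact (hcl i).trans_le (min_le_left _ _)
  · intro j hj w hw
    have hcl1 : ∀ i, ‖ic (ws.under (𝓞 k)) ((G' - G).coeff i)‖ < min ε 1 := hcl
    have heI : ‖ic w (e j)‖ ≤ 1 := by
      refine int_e (P j) (e j) w (hPm j) (fun i => ?_) (he j)
      rw [((hBEL k (L j) w).1 _).1, hw]
      exact hPI j i
    have hc : ∀ i, ‖kc k w ((G' - G).coeff i)‖ < 1 := by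
      intro i
      rw [((hBEL k (L j) w).1 _).2, hw]
      exact (hcl1 i).trans_le (min_le_right _ _)
    have h1 : ic w (aeval (e j) G') = ic w (aeval (e j) G) + ic w (aeval (e j) (G' - G)) := by
      rw [← map_add, ← map_add, add_sub_cancel]
    rw [h1, add_eq (by rw [hG.oth j hj w hw]; exact ev_lt w heI _ one_pos hc), hG.oth j hj w hw]

end Pool.Agent.H42.N6V
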